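import Pool.Prelude.Def_F_862454f0
import Pool.Graph.R_pool_sql_team_seeded_1acbe0a2.Y675.HO.Cnt
import Pool.Graph.R_seed8.Helper923.PNT

/-!
# Repeated largest prime factor in a product of consecutive integers: `v - u ≤ v ^ (1/2 - δ)`

A pair `(u, v)` is admissible if the largest prime factor of `u (u + 1) ⋯ v` occurs in this product with exponent at least
`2` (`LargestPrimeRepeated u v`). We show that there is `δ > 0` such that `v - u ≤ v ^ (1/2 - δ)` for all admissible pairs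
with `v` sufficiently large. More precisely, if `v - u > v ^ (1/2 - δ)` then the largest prime factor of `u (u + 1) ⋯ v`
is larger than `v ^ (1/2 + τ)` and occurs exactly once.

Proof: all intervals `(x, x + y]`, `y ≥ x ^ (1/2 - δ)`, contain an integer with a prime factor larger than `x ^ (1/2 + τ)`
(library). So the largest prime factor `P` has `P² > v`, and if it occurs twice, it divides two integers of `[u, v]`, whence
`P ≤ v - u`; that is impossible by the argument of Sylvester and Erdős with binomial coefficients and Chebyshev's bound if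
`v - u < v / 1001`, and by the prime number theorem otherwise.
-/

set_option autoImplicit false

namespace Pool.Agent.H32.Shelf.BelowSquareRoot

open Finset Filter N063b59cf

/-- a prime `p` with `p ^ 2 > v` whose square divides the product divides two factors -/
lemma two_multiples {u v p : ℕ} (hp : p.Prime) (hu : 1 ≤ u) (hv : v < p ^ 2)
    (h : p ^ 2 ∣ ∏ m ∈ Icc u v, m) : ∃ a b, u ≤ a ∧ a < b ∧ b ≤ v ∧ p ∣ a ∧ p ∣ b := by
  classical
  have hpp := hp.prime
  have h1 : p ∣ ∏ m ∈ Icc u v, m := dvd_trans (dvd_pow_self p two_ne_zero) h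
  obtain ⟨a, ha, hpa⟩ := (Prime.dvd_finsetProd_iff hpp _).1 h1
  have h2 : ∏ m ∈ Icc u v, m = a * ∏ m ∈ (Icc u v).erase a, m := (mul_prod_erase _ _ ha).symm
  have h3 : p ∣ ∏ m ∈ (Icc u v).erase a, m := by
    by_contra hcon
    rw [h2] at h
    have h4 : p ^ 2 ∣ a := Nat.Coprime.dvd_of_dvd_mul_right
      (Nat.Coprime.pow_left 2 ((Nat.Prime.coprime_iff_not_dvd hp).2 hcon)) h
    rw [mem_Icc] at ha
    have h5 := Nat.le_of_dvd (by omega) h4
    omega
  obtain ⟨b, hb, hpb⟩ := (Prime.dvd_finsetProd_iff hpp _).1 h3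
  rw [mem_erase, mem_Icc] at hb
  rw [mem_Icc] at ha
  rcases lt_or_gt_of_ne hb.1 with hlt | hlt
  · exact ⟨b, a, hb.2.1, hlt, ha.2, hpb, hpa⟩
  · exact ⟨a, b, ha.1, hlt, hb.2.2, hpa, hpb⟩

lemma prod_eq {u v : ℕ} (hu : 1 ≤ u) (huv : u ≤ v) :
    ∏ m ∈ Icc u v, m = v.descFactorial (v - u + 1) := by
  have h1 : ∏ m ∈ Icc u v, m = ∏ i ∈ range (v - u + 1), (u + i) := by
    have e : Icc u v = Ico u (v + 1) := by
      ext x
      rw [mem_Icc, mem_Ico]
      omega
    rw [e, Finset.prod_Ico_eq_prod_range, show v + 1 - u = v - u + 1 by omega]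
  obtain ⟨w, rfl⟩ : ∃ w, u = w + 1 := ⟨u - 1, by omega⟩
  rw [h1, ← Nat.ascFactorial_eq_prod_range, Nat.ascFactorial_eq_factorial_mul_choose,
    Nat.descFactorial_eq_factorial_mul_choose, show w + (v - (w + 1) + 1) = v by omega]

/-- if all the primes which divide `u ⋯ v` are at most `k = v - u`, and `1001 (k + 1) ≤ v`, then
`1000 ^ (k + 1) ≤ v ^ π(k)` -/
lemma binom {u v k : ℕ} (hu : 1 ≤ u) (huv : u ≤ v) (hk : k = v - u) (hkv : 1001 * (k + 1) ≤ v)
    (h : ∀ p : ℕ, p.Prime → p ∣ ∏ m ∈ Icc u v, m → p ≤ k) :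
    1000 ^ (k + 1) ≤ v ^ (Nat.primeCounting k) := by
  set C := v.choose (k + 1) with hC
  have hprod : ∏ m ∈ Icc u v, m = (k + 1).factorial * C := by
    rw [prod_eq hu huv, ← hk, Nat.descFactorial_eq_factorial_mul_choose]
  have hC0 : C ≠ 0 := (Nat.choose_pos (by omega)).ne'
  -- lower bound
  have h1 : 1000 ^ (k + 1) ≤ C := by
    have h2 : (v + 1 - (k + 1)) ^ (k + 1) ≤ v.descFactorial (k + 1) :=
      Nat.pow_sub_le_descFactorial v (k + 1)
    rw [Nat.descFactorial_eq_factorial_mul_choose, ← hC] at h2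
    have h3 : (1000 * (k + 1)) ^ (k + 1) ≤ (v + 1 - (k + 1)) ^ (k + 1) :=
      Nat.pow_le_pow_left (by omega) _
    have h4 : (k + 1).factorial ≤ (k + 1) ^ (k + 1) := Nat.factorial_le_pow _
    have h5 : (k + 1) ^ (k + 1) * 1000 ^ (k + 1) ≤ (k + 1) ^ (k + 1) * C := by
      calc (k + 1) ^ (k + 1) * 1000 ^ (k + 1) = (1000 * (k + 1)) ^ (k + 1) := by
            rw [mul_pow]; ring
        _ ≤ (k + 1).factorial * C := h3.trans h2
        _ ≤ (k + 1) ^ (k + 1) * C := Nat.mul_le_mul_right _ h4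
    exact Nat.le_of_mul_le_mul_left h5 (by positivity)
  -- upper bound
  refine h1.trans ?_
  have h6 : C = ∏ p ∈ C.primeFactors, p ^ C.factorization p := by
    conv_lhs => rw [← Nat.prod_factorization_pow_eq_self hC0]
    rfl
  rw [h6]
  refine (Finset.prod_le_pow_card _ _ v fun p _ => Nat.pow_factorization_choose_le (by omega)).trans ?_
  refine Nat.pow_le_pow_right (by omega) ?_
  rw [Nat.primeCounting, Nat.primeCounting', Nat.count_eq_card_filter_range]
  refine card_le_card fun p hp => ?_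
  rw [Nat.mem_primeFactors] at hp
  rw [mem_filter, mem_range]
  refine ⟨?_, hp.1⟩
  have := h p hp.1 (by rw [hprod]; exact dvd_mul_of_dvd_right hp.2.1 _)
  omega

/-- the analytic part of the argument of Sylvester and Erdős -/
lemma sylvester : ∃ K : ℕ, ∀ u v k : ℕ, K ≤ k → 1 ≤ u → u ≤ v → k = v - u → 1001 * (k + 1) ≤ v →
    v < k ^ 2 → ∃ p : ℕ, p.Prime ∧ p ∣ ∏ m ∈ Icc u v, m ∧ k < p := by
  have hlim : ∀ᶠ k : ℕ in atTop, 2 * Real.log k ≤ Real.sqrt k := by
    have h1 : (fun x : ℝ => Real.log x) =o[atTop] fun x : ℝ => Real.sqrt x := by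
      have := isLittleO_log_rpow_atTop (r := 1 / 2) (by norm_num)
      refine this.congr_right fun x => ?_
      rw [Real.sqrt_eq_rpow]
    have h2 := (h1.comp_tendsto tendsto_natCast_atTop_atTop).def (c := 1 / 2) (by norm_num)
    filter_upwards [h2] with k hk
    simp only [Function.comp, Real.norm_eq_abs] at hk
    rw [abs_of_nonneg (Real.sqrt_nonneg _)] at hk
    have := le_abs_self (Real.log (k : ℝ))
    linarith
  obtain ⟨K, hK⟩ := eventually_atTop.1 hlim
  refine ⟨K + 2, fun u v k hk hu huv hkuv hkv hvk => ?_⟩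
  by_contra hcon
  have h1 := binom hu huv hkuv hkv (fun p hp hpd => by
    by_contra hlt
    exact hcon ⟨p, hp, hpd, by omega⟩)
  have hk2 : (2 : ℝ) ≤ k := by
    have : 2 ≤ k := by omega
    exact_mod_cast this
  have hk0 : (0 : ℝ) < k := by linarith
  have hlk : 0 < Real.log k := Real.log_pos (by linarith)
  have h2 : ((k : ℝ) + 1) * Real.log 1000 ≤ Nat.primeCounting k * Real.log v := by
    have h3 : ((1000 ^ (k + 1) : ℕ) : ℝ) ≤ ((v ^ (Nat.primeCounting k) : ℕ) : ℝ) := by exact_mod_cast h1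
    have h4 := Real.log_le_log (by positivity) h3
    push_cast at h4
    rw [Real.log_pow, Real.log_pow] at h4
    push_cast at h4
    exact h4
  have h3 : (Nat.primeCounting k : ℝ) ≤ Real.log 4 * k / Real.log (Real.sqrt k) + Real.sqrt k := by
    have := Chebyshev.pi_le_log4_mul_div (x := (k : ℝ)) (by linarith)
    rwa [Nat.floor_natCast] at this
  have h4 : Real.log v ≤ 2 * Real.log k := by
    have hv0 : (0 : ℝ) < v := by
      have : 0 < v := by omega
      exact_mod_cast this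
    have h5 : (v : ℝ) ≤ (k : ℝ) ^ 2 := by exact_mod_cast hvk.le
    have h6 := Real.log_le_log hv0 h5
    rw [Real.log_pow] at h6
    exact_mod_cast h6
  have hsq : Real.log (Real.sqrt k) = Real.log k / 2 := Real.log_sqrt hk0.le
  rw [hsq] at h3
  have h5 : Nat.primeCounting k * Real.log v ≤
      (Real.log 4 * k / (Real.log k / 2) + Real.sqrt k) * (2 * Real.log k) := by
    refine mul_le_mul h3 h4 (Real.log_natCast_nonneg v) ?_
    have : 0 < Real.log 4 := Real.log_pos (by norm_num)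
    positivity
  have h6 : (Real.log 4 * k / (Real.log k / 2) + Real.sqrt k) * (2 * Real.log k) =
      4 * Real.log 4 * k + Real.sqrt k * (2 * Real.log k) := by
    field_simp
    ring
  have h7 : Real.sqrt k * (2 * Real.log k) ≤ Real.sqrt k * Real.sqrt k :=
    mul_le_mul_of_nonneg_left (hK k (by omega)) (Real.sqrt_nonneg _)
  rw [Real.mul_self_sqrt hk0.le] at h7
  have h8 : 4 * Real.log 4 + 1 < Real.log 1000 := by
    have e1 : 4 * Real.log 4 = Real.log 256 := by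
      rw [show (256 : ℝ) = 4 ^ 4 by norm_num, Real.log_pow]
      norm_num
    have e2 : (1 : ℝ) < Real.log (1000 / 256) := by
      rw [Real.lt_log_iff_exp_lt (by norm_num)]
      have := Real.exp_one_lt_d9
      linarith
    rw [Real.log_div (by norm_num) (by norm_num)] at e2
    linarith
  have h9 : 0 < Real.log 1000 := Real.log_pos (by norm_num)
  nlinarith

/-- a prime in `((1 - 1 / 2000) v, v]` -/
lemma short_prime : ∀ᶠ v : ℕ in atTop, ∃ q : ℕ, q.Prime ∧ q ≤ v ∧ (1 - 1 / 2000) * (v : ℝ) < q := by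
  have h1 := Pool.Agent.Helper923.PNT.theta_div_tendsto
  have h2 : ∀ᶠ x : ℝ in atTop, |Chebyshev.theta x / x - 1| < 1 / 10000 := by
    have := (Metric.tendsto_nhds.1 h1) (1 / 10000) (by norm_num)
    filter_upwards [this] with x hx
    rwa [Real.dist_eq] at hx
  have h3 : Tendsto (fun v : ℕ => (1 - 1 / 2000 : ℝ) * (v : ℝ)) atTop atTop :=
    Tendsto.const_mul_atTop (by norm_num) tendsto_natCast_atTop_atTop
  filter_upwards [tendsto_natCast_atTop_atTop.eventually h2, h3.eventually h2, eventually_ge_atTop 1]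
    with v e1 e2 hv1
  have hv : (0 : ℝ) < v := by exact_mod_cast hv1
  by_contra hcon
  have hle : Chebyshev.theta (v : ℝ) ≤ Chebyshev.theta ((1 - 1 / 2000) * (v : ℝ)) := by
    unfold Chebyshev.theta
    refine Finset.sum_le_sum_of_subset_of_nonneg ?_ ?_
    · intro q hq
      rw [mem_filter, mem_Ioc, Nat.floor_natCast] at hq
      rw [mem_filter, mem_Ioc]
      refine ⟨⟨hq.1.1, Nat.le_floor ?_⟩, hq.2⟩
      by_contra hlt
      exact hcon ⟨q, hq.2, hq.1.2, lt_of_not_ge hlt⟩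
    · intro q hq _
      exact Real.log_natCast_nonneg q
  rw [abs_lt] at e1 e2
  have k1 : (1 - 1 / 10000) * (v : ℝ) < Chebyshev.theta v := by
    have := e1.1
    have h4 : 1 - 1 / 10000 < Chebyshev.theta v / v := by linarith
    rwa [lt_div_iff₀ hv] at h4
  have k2 : Chebyshev.theta ((1 - 1 / 2000) * (v : ℝ)) < (1 + 1 / 10000) * ((1 - 1 / 2000) * (v : ℝ)) := by
    have h4 : Chebyshev.theta ((1 - 1 / 2000) * (v : ℝ)) / ((1 - 1 / 2000) * (v : ℝ)) < 1 + 1 / 10000 := by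
      linarith [e2.2]
    rwa [div_lt_iff₀ (by positivity)] at h4
  nlinarith

/-- all long intervals contain a multiple of a prime larger than `v ^ (1/2 + τ)` -/
lemma large_prime : ∃ τ δ : ℝ, 0 < τ ∧ 0 < δ ∧ δ < 1 / 4 ∧ ∀ᶠ v : ℕ in atTop, ∀ u : ℕ, u ≤ v →
    (v : ℝ) ^ (1 / 2 - δ) < ((v - u : ℕ) : ℝ) →
    ∃ q m : ℕ, q.Prime ∧ q ∣ m ∧ u ≤ m ∧ m ≤ v ∧ 1 ≤ m ∧ (v : ℝ) ^ (1 / 2 + τ) < q := by
  obtain ⟨τ, γ, c, δ, hτ, hγ, hc, hδ, hδ4, hlow⟩ := Pool.Agent.Y675.HO.lower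
  obtain ⟨x₀, hx₀⟩ := eventually_atTop.1 hlow
  refine ⟨τ / 2, δ, by positivity, hδ, hδ4, ?_⟩
  have hlim1 : ∀ᶠ v : ℕ in atTop, (2 : ℝ) ^ (1 / 2 + τ) ≤ (v : ℝ) ^ (τ / 2) :=
    ((tendsto_rpow_atTop (by positivity)).comp tendsto_natCast_atTop_atTop).eventually_ge_atTop _
  have hlim2 : ∀ᶠ v : ℕ in atTop, (4 : ℝ) ≤ (v : ℝ) ^ (1 / 2 : ℝ) :=
    ((tendsto_rpow_atTop (by norm_num)).comp tendsto_natCast_atTop_atTop).eventually_ge_atTop _
  filter_upwards [hlim1, hlim2, eventually_ge_atTop (2 * x₀ + 8)] with v e1 e2 e3 u huv hk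
  have hv8 : 8 ≤ v := by omega
  have hv0 : (0 : ℝ) < v := by
    have : 0 < v := by omega
    exact_mod_cast this
  have hv1 : (1 : ℝ) ≤ v := by
    have : 1 ≤ v := by omega
    exact_mod_cast this
  set y : ℕ := min (v - u) (v / 2) with hy
  have hyv : y ≤ v / 2 := min_le_right _ _
  have hyk : y ≤ v - u := min_le_left _ _
  set x : ℕ := v - y with hx
  have hxx₀ : x₀ ≤ x := by omega
  have hx2 : 2 ≤ x := by omega
  have hxv : x ≤ v := by omega
  have hxy : x + y = v := by omega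
  have hyx : y ≤ x := by omega
  have hx0 : (0 : ℝ) < x := by
    have : 0 < x := by omega
    exact_mod_cast this
  have hpow : (x : ℝ) ^ (1 / 2 - δ) ≤ (v : ℝ) ^ (1 / 2 - δ) :=
    Real.rpow_le_rpow hx0.le (by exact_mod_cast hxv) (by linarith)
  have hhalf : (v : ℝ) ^ (1 / 2 - δ) ≤ ((v / 2 : ℕ) : ℝ) := by
    have h1 : (v : ℝ) ^ (1 / 2 - δ) ≤ (v : ℝ) ^ (1 / 2 : ℝ) :=
      Real.rpow_le_rpow_of_exponent_le hv1 (by linarith)
    have h2 : (v : ℝ) ^ (1 / 2 : ℝ) * (v : ℝ) ^ (1 / 2 : ℝ) = v := by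
      rw [← Real.rpow_add hv0]
      norm_num
    have h3 : (v : ℝ) / 2 - 1 ≤ ((v / 2 : ℕ) : ℝ) := by
      have h4 : v ≤ 2 * (v / 2) + 1 := by omega
      have h5 : (v : ℝ) ≤ 2 * ((v / 2 : ℕ) : ℝ) + 1 := by exact_mod_cast h4
      linarith
    nlinarith
  have hxpow : (x : ℝ) ^ (1 / 2 - δ) ≤ (y : ℝ) := by
    rw [hy]
    push_cast [Nat.cast_min]
    exact le_min (hpow.trans hk.le) (hpow.trans hhalf)
  have h1 := hx₀ x hxx₀ y hxpow hyx
  have hy0 : (0 : ℝ) < y := lt_of_lt_of_le (Real.rpow_pos_of_pos hx0 _) hxpow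
  have hlog : 0 < Real.log x := Real.log_pos (by
    have : (2 : ℝ) ≤ x := by exact_mod_cast hx2
    linarith)
  have h2 : (0 : ℝ) < (Pool.Agent.TH977.PW.N (Pool.Agent.Y675.HO.P τ γ) x (x + y) : ℝ) :=
    lt_of_lt_of_le (by positivity) h1
  have h3 : 0 < Pool.Agent.TH977.PW.N (Pool.Agent.Y675.HO.P τ γ) x (x + y) := by exact_mod_cast h2
  unfold Pool.Agent.TH977.PW.N at h3
  obtain ⟨m, hm⟩ := card_pos.1 h3
  simp only [mem_filter] at hm
  obtain ⟨hm', _, _, _, q, hq, hqm, hqb⟩ := hm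
  rw [mem_Ioc, hxy] at hm'
  obtain ⟨hm1, hm2⟩ := hm'
  refine ⟨q, m, hq, hqm, by omega, hm2, by omega, lt_of_le_of_lt ?_ hqb⟩
  have hm0 : (0 : ℝ) < m := by
    have : 0 < m := by omega
    exact_mod_cast this
  have hmv : (v : ℝ) ≤ 2 * m := by
    have : v ≤ 2 * m := by omega
    exact_mod_cast this
  calc (v : ℝ) ^ (1 / 2 + τ / 2) = (v : ℝ) ^ (1 / 2 + τ) / (v : ℝ) ^ (τ / 2) := by
        rw [← Real.rpow_sub hv0]
        congr 1
        ring
    _ ≤ (2 * (m : ℝ)) ^ (1 / 2 + τ) / (2 : ℝ) ^ (1 / 2 + τ) := by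
        refine div_le_div₀ (by positivity) (Real.rpow_le_rpow hv0.le hmv (by linarith)) (by positivity) e1
    _ = (m : ℝ) ^ (1 / 2 + τ) := by
        rw [Real.mul_rpow (by norm_num) hm0.le]
        field_simp

/-- **Repeated largest prime factor in a product of consecutive integers.** There are `τ, δ > 0` such that for all large `v`
and all `u ≤ v`: if `v - u > v ^ (1/2 - δ)`, the largest prime factor of `u (u + 1) ⋯ v` is larger than `v ^ (1/2 + τ)` and
its square does not divide the product. So admissible pairs have `v - u ≤ v ^ (1/2 - δ)`. -/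
theorem result : ∃ τ δ : ℝ, 0 < τ ∧ 0 < δ ∧
    (∀ᶠ v : ℕ in atTop, ∀ u : ℕ, 1 ≤ u → u ≤ v → (v : ℝ) ^ (1 / 2 - δ) < ((v - u : ℕ) : ℝ) →
      (v : ℝ) ^ (1 / 2 + τ) < (Nat.maxPrimeFac (∏ m ∈ Icc u v, m) : ℝ) ∧
      ¬ Nat.maxPrimeFac (∏ m ∈ Icc u v, m) ^ 2 ∣ ∏ m ∈ Icc u v, m) ∧
    ∀ᶠ v : ℕ in atTop, ∀ u : ℕ, LargestPrimeRepeated u v → ((v - u : ℕ) : ℝ) ≤ (v : ℝ) ^ (1 / 2 - δ) := by
  obtain ⟨τ, δ, hτ, hδ, hδ4, hlp⟩ := large_prime
  obtain ⟨K, hK⟩ := sylvester
  have main : ∀ᶠ v : ℕ in atTop, ∀ u : ℕ, 1 ≤ u → u ≤ v → (v : ℝ) ^ (1 / 2 - δ) < ((v - u : ℕ) : ℝ) →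
      (v : ℝ) ^ (1 / 2 + τ) < (Nat.maxPrimeFac (∏ m ∈ Icc u v, m) : ℝ) ∧
      ¬ Nat.maxPrimeFac (∏ m ∈ Icc u v, m) ^ 2 ∣ ∏ m ∈ Icc u v, m := by
    filter_upwards [hlp, short_prime, eventually_ge_atTop (K ^ 2 + 4000)] with v e1 e2 e3 u hu huv hk
    set Q := ∏ m ∈ Icc u v, m with hQ
    have hv0 : (0 : ℝ) < v := by
      have : 0 < v := by omega
      exact_mod_cast this
    have hv1 : (1 : ℝ) ≤ v := by
      have : 1 ≤ v := by omega
      exact_mod_cast this
    have hQ0 : 0 < Q := Finset.prod_pos fun m hm => by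
      rw [mem_Icc] at hm
      omega
    have hQ1 : 1 < Q := by
      have h1 : v ∣ Q := Finset.dvd_prod_of_mem _ (mem_Icc.2 ⟨huv, le_rfl⟩)
      have h2 := Nat.le_of_dvd hQ0 h1
      omega
    have hP := Nat.prime_maxPrimeFac_of_one_lt Q hQ1
    obtain ⟨q, m, hq, hqm, hm1, hm2, hm3, hqb⟩ := e1 u huv hk
    have hqQ : q ∣ Q := hqm.trans (Finset.dvd_prod_of_mem _ (mem_Icc.2 ⟨hm1, hm2⟩))
    have hqP : q ≤ Nat.maxPrimeFac Q := Nat.le_maxPrimeFac Q q hQ0 hq hqQ
    have hb : (v : ℝ) ^ (1 / 2 + τ) < (Nat.maxPrimeFac Q : ℝ) :=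
      lt_of_lt_of_le hqb (by exact_mod_cast hqP)
    refine ⟨hb, fun hdvd => ?_⟩
    set P := Nat.maxPrimeFac Q with hPdef
    have hv2 : v < P ^ 2 := by
      have h1 : (v : ℝ) ^ (1 / 2 : ℝ) ≤ (v : ℝ) ^ (1 / 2 + τ) :=
        Real.rpow_le_rpow_of_exponent_le hv1 (by linarith)
      have h2 : (v : ℝ) ^ (1 / 2 : ℝ) * (v : ℝ) ^ (1 / 2 : ℝ) = v := by
        rw [← Real.rpow_add hv0]
        norm_num
      have h3 : 0 < (v : ℝ) ^ (1 / 2 : ℝ) := Real.rpow_pos_of_pos hv0 _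
      have h4 : (v : ℝ) < (P : ℝ) ^ 2 := by nlinarith
      exact_mod_cast h4
    obtain ⟨a, b, ha, hab, hbv, hPa, hPb⟩ := two_multiples hP hu hv2 hdvd
    have hPab : P ≤ b - a := Nat.le_of_dvd (by omega) (Nat.dvd_sub hPb hPa)
    have hPk : P ≤ v - u := by omega
    have haP : P ≤ a := Nat.le_of_dvd (by omega) hPa
    by_cases hcase : 1001 * (v - u + 1) ≤ v
    · have hKk : K ≤ v - u := by
        by_contra hlt
        have h1 : P < K := by omega
        have h2 : P ^ 2 ≤ K ^ 2 := Nat.pow_le_pow_left h1.le 2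
        omega
      obtain ⟨p, hp, hpQ, hpk⟩ := hK u v (v - u) hKk hu huv rfl hcase
        (lt_of_lt_of_le hv2 (Nat.pow_le_pow_left hPk 2))
      have h1 : p ≤ P := Nat.le_maxPrimeFac Q p hQ0 hp hpQ
      omega
    · obtain ⟨p, hp, hpv, hpb⟩ := e2
      have h1 : v < 1001 * (v - u + 1) := by omega
      have h2 : (v : ℝ) < 1001 * (((v - u : ℕ) : ℝ) + 1) := by exact_mod_cast h1
      have h3 : (4000 : ℝ) ≤ v := by
        have : 4000 ≤ v := by omega
        exact_mod_cast this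
      have h4 : ((v - u : ℕ) : ℝ) = (v : ℝ) - u := by
        rw [Nat.cast_sub huv]
      have h5 : (u : ℝ) < p := by
        rw [h4] at h2
        linarith
      have h6 : u ≤ p := by exact_mod_cast h5.le
      have hpQ : p ∣ Q := Finset.dvd_prod_of_mem _ (mem_Icc.2 ⟨h6, hpv⟩)
      have h7 : p ≤ P := Nat.le_maxPrimeFac Q p hQ0 hp hpQ
      have h8 : (v : ℝ) < 2 * (p : ℝ) := by linarith
      have h9 : v < 2 * p := by exact_mod_cast h8
      omega
  refine ⟨τ, δ, hτ, hδ, main, ?_⟩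
  filter_upwards [main] with v hv u hu
  by_contra hlt
  exact (hv u hu.1 hu.2.1 (lt_of_not_ge hlt)).2 hu.2.2.2

end Pool.Agent.H32.Shelf.BelowSquareRoot
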